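import Pool.Agent.K1H34.HYC.Stm2

/-!
# HYC-ATT: the attached vertices
-/

set_option autoImplicit false
open Classical Finset

namespace Pool.Agent.K1H28.HYC
open Pool.Agent.K1H34.HYC

variable {V : Type} [Fintype V]

lemma sum_dg_compl (G : SimpleGraph V) (A : Finset V) :
    ∑ z ∈ univ \ A, dg G A z = ∑ v ∈ A, dg G (univ \ A) v := by
  unfold dg
  simp only [Finset.card_filter]
  rw [Finset.sum_comm]
  refine Finset.sum_congr rfl fun v _ => Finset.sum_congr rfl fun z _ => ?_
  simp [G.adj_comm]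

lemma card_CN_le (G : SimpleGraph V) (Z : Finset V) (q : V → V) (u : V) (A : Finset V) :
    (A.filter (fun v => v ∈ CN G Z q u)).card ≤ ∑ z ∈ cls Z q u, dg G A z := by
  have h : A.filter (fun v => v ∈ CN G Z q u) ⊆
      (cls Z q u).biUnion (fun z => A.filter (fun v => G.Adj z v)) := by
    intro v hv
    rw [mem_filter] at hv
    obtain ⟨hvA, hv⟩ := hv
    unfold CN at hv
    rw [mem_filter] at hv
    obtain ⟨_, z, hz, hzv⟩ := hv
    exact mem_biUnion.2 ⟨z, hz, mem_filter.2 ⟨hvA, hzv⟩⟩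
  exact (card_le_card h).trans card_biUnion_le

lemma div_aux {N D a b : ℝ} (hD : 0 < D) (ha : 0 < a) (hb : 0 < b)
    (h : N * (D / b) ≤ D ^ 2 / (a * b)) : N ≤ D / a := by
  have h1 : 0 < D / b := div_pos hD hb
  have h2 : D ^ 2 / (a * b) = (D / a) * (D / b) := by
    field_simp
  rw [h2] at h
  exact le_of_mul_le_mul_right h h1

theorem part_a (G : SimpleGraph V) (D : ℕ) (hD : 1 ≤ D) (I : Finset V) (K : V → Finset V)
    (S Z : Finset V) (q : V → V) (hB : Base G D I K S Z q) (i : V) (hi : i ∈ I) :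
    ((univ.filter (fun u => Req G D I K Z q u i)).card : ℝ) ≤ D / 2 ^ 470 := by
  set U := univ.filter (fun u => Req G D I K Z q u i) with hU
  have h1 : ∑ u ∈ U, ((K i).filter (fun v => v ∈ CN G Z q u)).card ≤
      ∑ z ∈ univ \ K i, dg G (K i) z := by
    calc ∑ u ∈ U, ((K i).filter (fun v => v ∈ CN G Z q u)).card
        ≤ ∑ u ∈ U, ∑ z ∈ cls Z q u, dg G (K i) z :=
          sum_le_sum fun u _ => card_CN_le G Z q u (K i)
      _ = ∑ z ∈ U.biUnion (cls Z q), dg G (K i) z := by
          rw [sum_biUnion]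
          intro u _ u' _ huu'
          rw [Function.onFun, Finset.disjoint_left]
          intro z hz hz'
          exact huu' ((mem_filter.1 hz).2.symm.trans (mem_filter.1 hz').2)
      _ ≤ ∑ z ∈ univ \ K i, dg G (K i) z := by
          apply sum_le_sum_of_subset
          intro z hz
          obtain ⟨u, hu, hz⟩ := mem_biUnion.1 hz
          rw [mem_sdiff]
          exact ⟨mem_univ _, (mem_filter.1 hu).2.2.2.2.1 z hz⟩
  rw [sum_dg_compl] at h1
  have h2 : ∑ u ∈ U, (D : ℝ) / 2 ^ 120 ≤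
      ∑ u ∈ U, (((K i).filter (fun v => v ∈ CN G Z q u)).card : ℝ) :=
    sum_le_sum fun u hu => ((mem_filter.1 hu).2.2.2.2.2).le
  rw [sum_const, nsmul_eq_mul] at h2
  have h3 : (∑ u ∈ U, (((K i).filter (fun v => v ∈ CN G Z q u)).card : ℝ)) ≤
      ∑ v ∈ K i, (dg G (univ \ K i) v : ℝ) := by exact_mod_cast h1
  have h4 := hB.tot i hi
  have hDpos : (0 : ℝ) < D := by exact_mod_cast hD
  have h5 : (2 : ℝ) ^ 590 = 2 ^ 470 * 2 ^ 120 := by rw [← pow_add]
  rw [h5] at h4
  exact div_aux hDpos (by positivity) (by positivity) ((h2.trans h3).trans h4)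

lemma card_CN_univ (G : SimpleGraph V) (D : ℕ) (I : Finset V) (K : V → Finset V)
    (S Z : Finset V) (q : V → V) (hdeg : ∀ v, dg G univ v ≤ D)
    (hB : Base G D I K S Z q) (u : V) :
    ((univ : Finset V).filter (fun v => v ∈ CN G Z q u)).card ≤ 2 * D := by
  calc ((univ : Finset V).filter (fun v => v ∈ CN G Z q u)).card
      ≤ ∑ z ∈ cls Z q u, dg G univ z := card_CN_le G Z q u univ
    _ ≤ ∑ _z ∈ cls Z q u, D := sum_le_sum fun z _ => hdeg z
    _ = (cls Z q u).card * D := by rw [sum_const, smul_eq_mul]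
    _ ≤ 2 * D := Nat.mul_le_mul_right _ (hB.size u)

theorem part_b (G : SimpleGraph V) (D : ℕ) (hD : 1 ≤ D) (I : Finset V) (K : V → Finset V)
    (S Z : Finset V) (q : V → V) (hdeg : ∀ v, dg G univ v ≤ D)
    (hB : Base G D I K S Z q) (u : V) :
    (univ.filter (fun i => Req G D I K Z q u i)).card ≤ 2 ^ 121 := by
  set J := univ.filter (fun i => Req G D I K Z q u i) with hJ
  have h1 : ∑ i ∈ J, ((K i).filter (fun v => v ∈ CN G Z q u)).card ≤ 2 * D := by
    rw [← card_biUnion]
    · refine le_trans (card_le_card ?_) (card_CN_univ G D I K S Z q hdeg hB u)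
      intro v hv
      obtain ⟨i, _, hv⟩ := mem_biUnion.1 hv
      exact mem_filter.2 ⟨mem_univ _, (mem_filter.1 hv).2⟩
    · intro i hi j hj hij
      have hi' : i ∈ I := (mem_filter.1 hi).2.2.2.1
      have hj' : j ∈ I := (mem_filter.1 hj).2.2.2.1
      exact Disjoint.mono (filter_subset _ _) (filter_subset _ _) (hB.disj i hi' j hj' hij)
  have h2 : ∑ i ∈ J, (D : ℝ) / 2 ^ 120 ≤
      ∑ i ∈ J, (((K i).filter (fun v => v ∈ CN G Z q u)).card : ℝ) :=
    sum_le_sum fun i hi => ((mem_filter.1 hi).2.2.2.2.2).le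
  rw [sum_const, nsmul_eq_mul] at h2
  have h3 : (∑ i ∈ J, (((K i).filter (fun v => v ∈ CN G Z q u)).card : ℝ)) ≤ 2 * D := by
    exact_mod_cast h1
  have hDpos : (0 : ℝ) < D := by exact_mod_cast hD
  have h4 : (J.card : ℝ) * (D / 2 ^ 120) ≤ 2 ^ 121 * (D / 2 ^ 120) := by
    have : (2 : ℝ) ^ 121 * (D / 2 ^ 120) = 2 * D := by
      have h5 : (2 : ℝ) ^ 121 = 2 * 2 ^ 120 := by rw [← pow_succ']
      rw [h5]
      field_simp
    rw [this]
    exact h2.trans h3
  have h5 : (J.card : ℝ) ≤ 2 ^ 121 := le_of_mul_le_mul_right h4 (by positivity)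
  exact_mod_cast h5

/-- at most `76/100 D` points of `K i` are neighbours of the class of `u` -/
theorem CN_small (G : SimpleGraph V) (D : ℕ) (I : Finset V) (K : V → Finset V)
    (S Z : Finset V) (q : V → V) (hB : Base G D I K S Z q) (u i : V)
    (hR : Req G D I K Z q u i) :
    (((K i).filter (fun v => v ∈ CN G Z q u)).card : ℝ) ≤ 76 / 100 * D := by
  obtain ⟨huZ, hqu, hi, hout, _⟩ := hR
  have hucls : u ∈ cls Z q u := mem_filter.2 ⟨huZ, hqu⟩
  have hb := card_CN_le G Z q u (K i)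
  by_cases hc : ∃ j ∈ I, u ∈ K j
  · obtain ⟨j, hj, huj⟩ := hc
    have hij : j ≠ i := by
      rintro rfl
      exact hout u hucls huj
    have h1 : ∀ z ∈ cls Z q u, (dg G (K i) z : ℝ) ≤ 26 / 100 * D := by
      intro z hz
      have hzZ : z ∈ Z := (mem_filter.1 hz).1
      have hzj : z ∈ K j := (hB.qK z hzZ j hj).1 (by rw [(mem_filter.1 hz).2]; exact huj)
      refine le_trans ?_ (hB.inside j hj z hzj)
      have : dg G (K i) z ≤ dg G (univ \ K j) z := by
        unfold dg
        apply card_le_card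
        apply filter_subset_filter
        intro v hv
        rw [mem_sdiff]
        exact ⟨mem_univ _, fun hv' => (Finset.disjoint_left.1 (hB.disj j hj i hi hij)) hv' hv⟩
      exact_mod_cast this
    have h2 : (((K i).filter (fun v => v ∈ CN G Z q u)).card : ℝ) ≤
        ∑ z ∈ cls Z q u, (dg G (K i) z : ℝ) := by exact_mod_cast hb
    have h3 : ∑ z ∈ cls Z q u, (dg G (K i) z : ℝ) ≤ ∑ _z ∈ cls Z q u, 26 / 100 * (D : ℝ) :=
      sum_le_sum h1
    rw [sum_const, nsmul_eq_mul] at h3
    have h4 : ((cls Z q u).card : ℝ) ≤ 2 := by exact_mod_cast hB.size u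
    have hD0 : (0 : ℝ) ≤ D := Nat.cast_nonneg D
    have h5 : ((cls Z q u).card : ℝ) * (26 / 100 * (D : ℝ)) ≤ 2 * (26 / 100 * (D : ℝ)) :=
      mul_le_mul_of_nonneg_right h4 (by positivity)
    linarith
  · push Not at hc
    have h1 : cls Z q u = {u} := by
      ext z
      constructor
      · intro hz
        have hzZ : z ∈ Z := (mem_filter.1 hz).1
        have hzu : q z = u := (mem_filter.1 hz).2
        have hzn : ∀ j ∈ I, z ∉ K j := by
          intro j hj hzj
          have := (hB.qK z hzZ j hj).2 hzj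
          rw [hzu] at this
          exact hc j hj this
        have := hB.qT z hzZ hzn
        rw [mem_singleton]
        rw [← this, hzu]
      · intro hz
        rw [mem_singleton] at hz
        rw [hz]
        exact hucls
    rw [h1, sum_singleton] at hb
    have h2 := hB.outside i hi u (hout u hucls)
    have hb' : (((K i).filter (fun v => v ∈ CN G Z q u)).card : ℝ) ≤ (dg G (K i) u : ℝ) := by
      exact_mod_cast hb
    linarith

/-- the choices for `att u i` -/
noncomputable def Ch (G : SimpleGraph V) (K : V → Finset V) (Z : Finset V) (q : V → V)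
    (u i : V) : Finset V :=
  (K i).filter (fun v => v ∉ Z ∧ v ∉ CN G Z q u)

theorem Ch_large (G : SimpleGraph V) (D : ℕ) (I : Finset V) (K : V → Finset V)
    (S Z : Finset V) (q : V → V) (hB : Base G D I K S Z q) (u i : V)
    (hR : Req G D I K Z q u i) :
    (20 / 100 : ℝ) * D ≤ (Ch G K Z q u i).card := by
  have h1 : K i ⊆ Ch G K Z q u i ∪ ((K i).filter (fun v => v ∈ Z) ∪
      (K i).filter (fun v => v ∈ CN G Z q u)) := by
    intro v hv
    by_cases h1 : v ∈ Z
    · exact mem_union_right _ (mem_union_left _ (mem_filter.2 ⟨hv, h1⟩))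
    · by_cases h2 : v ∈ CN G Z q u
      · exact mem_union_right _ (mem_union_right _ (mem_filter.2 ⟨hv, h2⟩))
      · exact mem_union_left _ (mem_filter.2 ⟨hv, h1, h2⟩)
  have h2 : (K i).card ≤ (Ch G K Z q u i).card + (((K i).filter (fun v => v ∈ Z)).card +
      ((K i).filter (fun v => v ∈ CN G Z q u)).card) :=
    (card_le_card h1).trans ((card_union_le _ _).trans
      (Nat.add_le_add_left (card_union_le _ _) _))
  have h2' : ((K i).card : ℝ) ≤ (Ch G K Z q u i).card + ((((K i).filter (fun v => v ∈ Z)).card : ℝ) +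
      ((K i).filter (fun v => v ∈ CN G Z q u)).card) := by exact_mod_cast h2
  have h3 := CN_small G D I K S Z q hB u i hR
  have h4 := hB.few i hR.2.2.1
  have h5 := hB.card i hR.2.2.1
  have hD0 : (0 : ℝ) ≤ D := Nat.cast_nonneg D
  have h6 : (D : ℝ) / 2 ^ 296 ≤ D / 100 := by
    apply div_le_div_of_nonneg_left hD0 (by norm_num)
    calc (100 : ℝ) ≤ 2 ^ 7 := by norm_num
      _ ≤ 2 ^ 296 := pow_le_pow_right₀ (by norm_num) (by norm_num)
  linarith

theorem t_ATT : S_GREEDY → S_ATT := by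
  intro hG
  refine ⟨1, ?_⟩
  intro D hD V _ G I K S Z q hdeg hB
  have ha := part_a G D hD I K S Z q hB
  have hb := part_b G D hD I K S Z q hdeg hB
  refine ⟨ha, hb, ?_⟩
  have hDpos : (0 : ℝ) < D := by exact_mod_cast hD
  obtain ⟨g, hg1, hg2⟩ := hG {ρ : V × V // Req G D I K Z q ρ.1 ρ.2} V
    (fun ρ => Ch G K Z q ρ.1.1 ρ.1.2)
    (fun ρ y ρ' y' => (ρ.1.2 = ρ'.1.2 ∧ y = y') ∨ (ρ.1.1 = ρ'.1.1 ∧ G.Adj y y'))
    (by
      rintro ρ y ρ' y' (⟨h1, h2⟩ | ⟨h1, h2⟩)
      · exact Or.inl ⟨h1.symm, h2.symm⟩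
      · exact Or.inr ⟨h1.symm, h2.symm⟩)
    (by
      intro ρ
      have := Ch_large G D I K S Z q hB ρ.1.1 ρ.1.2 ρ.2
      rw [← card_pos]
      have h1 : (0 : ℝ) < (Ch G K Z q ρ.1.1 ρ.1.2).card := lt_of_lt_of_le (by positivity) this
      exact_mod_cast h1)
    (by
      rintro ⟨⟨u, i⟩, hR⟩ g hg
      have hR' : Req G D I K Z q u i := hR
      have hl := Ch_large G D I K S Z q hB u i hR
      have hsub : (Ch G K Z q u i).filter (fun y => ∃ ρ' : {ρ : V × V // Req G D I K Z q ρ.1 ρ.2},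
          ρ' ≠ ⟨(u, i), hR⟩ ∧ ((i = ρ'.1.2 ∧ y = g ρ') ∨ (u = ρ'.1.1 ∧ G.Adj y (g ρ')))) ⊆
          (univ.filter (fun u' => Req G D I K Z q u' i)).image
            (fun u' => if h : Req G D I K Z q u' i then g ⟨(u', i), h⟩ else u') ∪
          (univ.filter (fun i' => Req G D I K Z q u i')).biUnion
            (fun i' => if h : Req G D I K Z q u i' ∧ i' ≠ i then
              (univ \ K i').filter (fun y => G.Adj (g ⟨(u, i'), h.1⟩) y) else ∅) := by
        intro y hy
        rw [mem_filter] at hy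
        obtain ⟨hy, ⟨⟨u', i'⟩, hρ'⟩, hne, h⟩ := hy
        rcases h with ⟨h1, h2⟩ | ⟨h1, h2⟩
        · apply mem_union_left
          simp only at h1
          subst h1
          refine mem_image.2 ⟨u', mem_filter.2 ⟨mem_univ _, hρ'⟩, ?_⟩
          have hρ2 : Req G D I K Z q u' i := hρ'
          rw [dif_pos hρ2]
          exact h2.symm
        · apply mem_union_right
          simp only at h1
          subst h1
          have hρ2 : Req G D I K Z q u i' := hρ'
          have hii : i' ≠ i := by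
            rintro rfl
            exact hne rfl
          refine mem_biUnion.2 ⟨i', mem_filter.2 ⟨mem_univ _, hρ2⟩, ?_⟩
          rw [dif_pos ⟨hρ2, hii⟩]
          rw [mem_filter, mem_sdiff]
          refine ⟨⟨mem_univ _, fun hy' => ?_⟩, h2.symm⟩
          exact (Finset.disjoint_left.1 (hB.disj i' hρ2.2.2.1 i hR'.2.2.1 hii)) hy'
            (mem_filter.1 hy).1
      have hcard := (card_le_card hsub).trans (card_union_le _ _)
      have hc1 : ((univ.filter (fun u' => Req G D I K Z q u' i)).image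
            (fun u' => if h : Req G D I K Z q u' i then g ⟨(u', i), h⟩ else u')).card ≤
            (univ.filter (fun u' => Req G D I K Z q u' i)).card := card_image_le
      have hc2 : (((univ.filter (fun i' => Req G D I K Z q u i')).biUnion
            (fun i' => if h : Req G D I K Z q u i' ∧ i' ≠ i then
              (univ \ K i').filter (fun y => G.Adj (g ⟨(u, i'), h.1⟩) y) else ∅)).card : ℝ) ≤
            2 ^ 121 * (D / 2 ^ 300) := by
        have h1 : (((univ.filter (fun i' => Req G D I K Z q u i')).biUnion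
            (fun i' => if h : Req G D I K Z q u i' ∧ i' ≠ i then
              (univ \ K i').filter (fun y => G.Adj (g ⟨(u, i'), h.1⟩) y) else ∅)).card : ℝ) ≤
            ∑ i' ∈ univ.filter (fun i' => Req G D I K Z q u i'), (D : ℝ) / 2 ^ 300 := by
          refine le_trans (Nat.cast_le.2 card_biUnion_le) ?_
          rw [Nat.cast_sum]
          apply sum_le_sum
          intro i' hi'
          by_cases h : Req G D I K Z q u i' ∧ i' ≠ i
          · rw [dif_pos h]
            have hgm := hg ⟨(u, i'), h.1⟩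
            have hgm1 : g ⟨(u, i'), h.1⟩ ∈ K i' := (mem_filter.1 hgm).1
            have hgm2 : g ⟨(u, i'), h.1⟩ ∉ Z := (mem_filter.1 hgm).2.1
            exact hB.out i' h.1.2.2.1 _ hgm1 hgm2
          · rw [dif_neg h, card_empty, Nat.cast_zero]
            positivity
        rw [sum_const, nsmul_eq_mul] at h1
        refine h1.trans ?_
        apply mul_le_mul_of_nonneg_right _ (by positivity)
        exact_mod_cast hb u
      have hc3 := ha i hR'.2.2.1
      have hcardR : (((Ch G K Z q u i).filter (fun y =>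
          ∃ ρ' : {ρ : V × V // Req G D I K Z q ρ.1 ρ.2},
          ρ' ≠ ⟨(u, i), hR⟩ ∧ ((i = ρ'.1.2 ∧ y = g ρ') ∨ (u = ρ'.1.1 ∧ G.Adj y (g ρ'))))).card : ℝ) ≤
          D / 2 ^ 470 + 2 ^ 121 * (D / 2 ^ 300) := by
        refine le_trans (Nat.cast_le.2 hcard) ?_
        rw [Nat.cast_add]
        refine add_le_add (le_trans (Nat.cast_le.2 hc1) hc3) hc2
      have h6 : (D : ℝ) / 2 ^ 470 ≤ D / 2 ^ 7 := by
        apply div_le_div_of_nonneg_left hDpos.le (by norm_num)
        exact pow_le_pow_right₀ (by norm_num) (by norm_num)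
      have h7 : (2 : ℝ) ^ 121 * (D / 2 ^ 300) ≤ D / 2 ^ 7 := by
        have e1 : (2 : ℝ) ^ 300 = 2 ^ 121 * 2 ^ 179 := by rw [← pow_add]
        have e2 : (2 : ℝ) ^ 121 * (D / 2 ^ 300) = D / 2 ^ 179 := by
          rw [e1]
          have : (2 : ℝ) ^ 121 ≠ 0 := by positivity
          have : (2 : ℝ) ^ 179 ≠ 0 := by positivity
          field_simp
        rw [e2]
        apply div_le_div_of_nonneg_left hDpos.le (by norm_num)
        exact pow_le_pow_right₀ (by norm_num) (by norm_num)
      have h8 : (D : ℝ) / 2 ^ 7 = D / 128 := by norm_num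
      have h9 : (((Ch G K Z q u i).filter (fun y =>
          ∃ ρ' : {ρ : V × V // Req G D I K Z q ρ.1 ρ.2},
          ρ' ≠ ⟨(u, i), hR⟩ ∧ ((i = ρ'.1.2 ∧ y = g ρ') ∨ (u = ρ'.1.1 ∧ G.Adj y (g ρ'))))).card : ℝ) <
          (Ch G K Z q u i).card := by
        rw [h8] at h6 h7
        linarith
      exact_mod_cast h9)
  refine ⟨fun u i => if h : Req G D I K Z q u i then g ⟨(u, i), h⟩ else u, ?_, ?_, ?_⟩
  · intro u i hR
    have h1 := hg1 ⟨(u, i), hR⟩
    have h2 := mem_filter.1 h1
    simp only [dif_pos hR]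
    exact ⟨h2.1, h2.2.1, h2.2.2⟩
  · intro u u' i hR hR' hatt
    simp only [dif_pos hR, dif_pos hR'] at hatt
    by_contra hne
    refine hg2 ⟨(u, i), hR⟩ ⟨(u', i), hR'⟩ ?_ (Or.inl ⟨rfl, hatt⟩)
    intro h
    exact hne (congrArg (fun ρ => ρ.1.1) h)
  · intro u i i' hR hR'
    simp only [dif_pos hR, dif_pos hR']
    by_cases hii : i = i'
    · subst hii
      exact G.loopless.irrefl _
    · intro hadj
      refine hg2 ⟨(u, i), hR⟩ ⟨(u, i'), hR'⟩ ?_ (Or.inr ⟨rfl, hadj⟩)
      intro h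
      exact hii (congrArg (fun ρ => ρ.1.2) h)

end Pool.Agent.K1H28.HYC
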